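import Pool.Agent.N110.SE.Main
import Pool.Agent.N227.SE.D
import Pool.Agent.N227.SE.G
import Pool.Agent.N441.SE.J
import Pool.Agent.N769.RK.GE

/-!
The parts of the proof: `StmSG`, `StmSD` are by helper227, `StmSJ` by helper441.
-/

set_option autoImplicit false

namespace Pool.Agent.N110.SE

theorem stmSJ : StmSJ := Pool.Agent.N441.SE.leafSJ Pool.Agent.N769.RK.leafGE

theorem stmSG : StmSG := Pool.Agent.N227.SE.leafSG

theorem stmSD : StmSD := Pool.Agent.N227.SE.leafSD

end Pool.Agent.N110.SE
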