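import Pool.Agent.N110.SE.R
import Pool.Agent.N110.NV.Main

/-!
Semigroups of commuting dominant rational self-maps which preserve a nef divisor `K_X + Δ`: a bound
for the numerical dimension by the growth rank.
-/

set_option autoImplicit false
set_option linter.overlappingInstances false
set_option linter.unusedSectionVars false

open FF Module MvPolynomial Pool.Agent.W602.GT Pool.Agent.W603.LV
open Pool.Agent.Y172 Pool.Agent.Y191 Pool.Agent.R887 Pool.Agent.N110.RK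
open scoped ENNReal

namespace Pool.Agent.N110.SE

section

variable {K : Type} [Field K] [Algebra ℂ K] {N n : ℕ} {y : Fin (N + 1) → K}

/-- a nef divisor `K_X + Δ` is pseudo-effective: the numerical dimension is at least zero -/
theorem not_numDimLt_zero (hy : NormalModel y) (hn : Algebra.trdeg ℂ K = n) (hn0 : 0 < n)
    {Δ : Place ℂ K → ℚ} (hnef : LogNef y n Δ) : ¬ NumDimLt y n Δ 0 := by
  intro h
  obtain ⟨i, hi⟩ := hy.ne
  have cx := ctx hy hn hi
  obtain ⟨x, E, hx, hE⟩ := exists_crd hn (k := ℂ) (K := K)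
  have hfr : IsFrame E := fun F => ⟨fun j => F (x j),
    (Pool.Agent.W73.PG.PULL.expand x hx E hE F).symm⟩
  obtain ⟨c, hcfin, hc⟩ := exists_ordc hy hn hx hE
  have hc' : IsDisc y E c := hc
  obtain ⟨Hy, hHy, hHP⟩ := exists_hyp hy hi
  obtain ⟨t, ht, m₀, h1⟩ := h Hy hHy (1 / 2) (by norm_num)
  obtain ⟨q₀, hq₀⟩ := exists_nat_gt (1 / t)
  obtain ⟨q, hq⟩ : ∃ q, q = max m₀ q₀ + 1 := ⟨_, rfl⟩
  obtain ⟨M, hM, σ, hσ, h2, -⟩ := nef_seq hy hn hn0 hnef hi hfr hc' hHy hHP q (by omega)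
  have hσm : σ ∈ Lsp y c (M * q) ((M * q) • Δ + M • Hy) := by
    have := h2 i
    rwa [div_self hi, mul_one] at this
  have hcard : (Multiset.replicate n (hcls hy hi)).card = n := Multiset.card_replicate _ _
  obtain ⟨W, hW, e⟩ := exists_max cx hcard
  have hpos := I_pos cx hcard
  rw [sel_rep] at hW
  obtain ⟨w, hw⟩ := exists_fin W hW.1
  have hwm : ∀ j, w j ∈ Submodule.span ℂ (affS y i) := by
    intro j
    have h3 : w j ∈ {x | x ∈ W} := by
      rw [hw]
      exact ⟨j, rfl⟩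
    exact hW.2 _ h3
  have hq1 : m₀ ≤ q := by rw [hq]; exact (le_max_left _ _).trans (Nat.le_succ _)
  have hq2 : (q₀ : ℝ) ≤ q := by
    rw [hq]
    exact_mod_cast (le_max_right _ _).trans (Nat.le_succ _)
  have hM' : (1 : ℝ) ≤ M := by exact_mod_cast hM
  have h3 : m₀ ≤ M * q := by nlinarith
  have h4 : ((M : ℕ) : ℝ) ≤ t * ((M * q : ℕ) : ℝ) := by
    rw [div_lt_iff₀ ht] at hq₀
    push_cast
    have h4 : 1 ≤ (q : ℝ) * t := by nlinarith
    nlinarith
  have h5 := h1 (M * q) M h3 h4 (fun j : Fin (n - 0) => w j)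
    (fun a => pencil_span hi (hwm a)) (fun _ => frm x (M * q) σ) E (fun j => by
      rw [isSection_iff hc' (frm_pluri x _ _), frm_self hE]
      exact hσm) (by
      rw [frm_self hE]
      exact hσ)
  have e1 : degreeOver (fun j : Fin (n - 0) => w j)
      (fun j : Fin 0 => frm x (M * q) σ E / frm x (M * q) σ E) = dm ℂ (W + 0) := by
    refine deg_dm ?_ ?_
    · rw [hw]
    · ext z
      simp
  rw [e1, add_zero, e, pow_zero, mul_one] at h5
  have h6 : (1 : ℝ) ≤ I (Multiset.replicate n (hcls hy hi)) := by exact_mod_cast hpos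
  linarith

/-- the directions of subexponential growth -/
theorem semi_space (hSJ : StmSJ) (hSG : StmSG) (hSD : StmSD) (hy : NormalModel y)
    (hn : Algebra.trdeg ℂ K = n) (hn0 : 0 < n) {Δ : Place ℂ K → ℚ}
    (hΔ : {P | IsPrimeDivisor y P ∧ Δ P ≠ 0}.Finite) (hnef : LogNef y n Δ) {r : ℕ}
    {φ : (Fin r → ℕ) → (K →ₐ[ℂ] K)} (hφ : ∀ u v, φ (u + v) = φ u * φ v)
    (hP : ∀ v, SelfPullLe (φ v) y n Δ) {ν : ℕ} (hν : ν ≤ n) (hnum : ¬ NumDimLt y n Δ ν) :
    ∃ W : Submodule ℝ (Fin r → ℝ), r + ν ≤ finrank ℝ W + n ∧ ∀ w ∈ W, CorrSubexp φ y n w := by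
  obtain ⟨i, hi⟩ := hy.ne
  obtain ⟨m, M, c, ε, h⟩ := hSG hy hn hn0 hi hΔ hnef hφ hP hν hnum
  obtain ⟨W, hW1, hW2⟩ := semi_rank hSJ h
  refine ⟨W, hW1, fun w hw δ hδ => ?_⟩
  obtain ⟨B, hB⟩ := hW2 w hw δ hδ
  refine ⟨B, fun l v hv => (hSD hy hn hn0 hi v).trans (ENNReal.ofReal_le_ofReal ?_)⟩
  refine le_trans (le_of_eq ?_) (hB l v hv)
  have hs : (Multiset.replicate n (hcls hy hi)).card = n := Multiset.card_replicate _ _
  have h1 := h.inv (ng v) (Multiset.replicate n (hcls hy hi)) hs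
  have h2 := h.pos (Multiset.replicate n (hcls hy hi)) hs
  have h3 := I_emap hy hn hi (φ (ng v)) hs
  have h4 : (mapDegree (φ (ng v)) : ℝ) = Real.exp (∑ i, Real.log (mapDegree
      (φ (Pi.single i 1)) : ℝ) * (ng v i : ℝ)) := by
    beta_reduce at h1 h2
    rw [h3] at h1
    push_cast at h1
    exact mul_right_cancel₀ h2.ne' h1
  rw [h4, Real.exp_neg, mul_comm, div_eq_mul_inv]

/-- **The rank theorem** for semigroups of commuting dominant rational self-maps. -/
theorem semi_main (hSJ : StmSJ) (hSG : StmSG) (hSD : StmSD) (hy : NormalModel y)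
    (hn : Algebra.trdeg ℂ K = n) (hn0 : 0 < n) {Δ : Place ℂ K → ℚ}
    (hΔ : {P | IsPrimeDivisor y P ∧ Δ P ≠ 0}.Finite) (hnef : LogNef y n Δ) {r s : ℕ} (hs : 0 < s)
    {φ : (Fin r → ℕ) → (K →ₐ[ℂ] K)} (hφ : ∀ u v, φ (u + v) = φ u * φ v)
    (hP : ∀ v, SelfPullLe (φ v) y n Δ) (hrank : CorrRankGe φ y n s) :
    s ≤ n ∧ NumDimLt y n Δ (n - s + 1) := by
  have hsn : s ≤ n := by
    obtain ⟨W, hW1, hW⟩ := semi_space hSJ hSG hSD hy hn hn0 hΔ hnef hφ hP (Nat.zero_le n)
      (not_numDimLt_zero hy hn hn0 hnef)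
    have := hrank W hW
    omega
  refine ⟨hsn, ?_⟩
  by_contra hnum
  obtain ⟨W, hW1, hW⟩ := semi_space hSJ hSG hSD hy hn hn0 hΔ hnef hφ hP
    (by omega : n - s + 1 ≤ n) hnum
  have h2 := hrank W hW
  omega

/-- exponential growth in all directions: the growth rank is `r` -/
theorem corrRank_of_exp {r : ℕ} {φ : (Fin r → ℕ) → (K →ₐ[ℂ] K)} (h : CorrExpGrowth φ y n) :
    CorrRankGe φ y n r := by
  intro W hW
  obtain ⟨c, δ, hc, hδ, hg⟩ := h
  have hbot : W = ⊥ := by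
    by_contra hW3
    obtain ⟨w, hw, hw0⟩ := Submodule.exists_mem_ne_zero_of_ne_bot hW3
    refine no_zero_dir (f := fun v => c * Real.exp (δ * ∑ i, |(v i : ℝ)|)) hc hδ
      (fun v => le_rfl) hw0 fun ε hε => ?_
    obtain ⟨B, hB⟩ := hW w hw ε hε
    obtain ⟨B', hB'⟩ := hW (-w) (W.neg_mem hw) ε hε
    refine ⟨max B B', fun l u hu => ?_⟩
    have h2 : 0 < c * Real.exp (δ * ∑ i, |(u i : ℝ)|) := by positivity
    have h3 : 0 ≤ Real.exp (ε * l) := (Real.exp_pos _).le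
    have h4 := hB l u hu
    have h5 := hB' l (-u) (fun i => by
      have := hu i
      rw [Pi.neg_apply, Pi.neg_apply, Int.cast_neg, mul_neg, ← neg_sub', abs_neg]
      exact this)
    have h6 : ENNReal.ofReal (c * Real.exp (δ * ∑ i, |(u i : ℝ)|)) ≤
        ENNReal.ofReal (max B B' * Real.exp (ε * l)) :=
      (hg u).trans (max_le
        (h4.trans (ENNReal.ofReal_le_ofReal (mul_le_mul_of_nonneg_right (le_max_left _ _) h3)))
        (h5.trans (ENNReal.ofReal_le_ofReal (mul_le_mul_of_nonneg_right (le_max_right _ _) h3))))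
    by_contra hcon
    rw [ENNReal.ofReal_le_ofReal_iff'] at h6
    rcases h6 with h6 | h6
    · exact hcon h6
    · linarith
  rw [hbot, finrank_bot, zero_add]

end

end Pool.Agent.N110.SE
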