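import Pool.Agent.N110.SE.Defs
import Pool.Agent.N110.RK.Geo
import Pool.Agent.N110.RK.Stm
import Pool.Agent.N110.QAssem

/-!
Semigroups of commuting dominant rational self-maps: the steps of the proof of the rank theorem.
-/

set_option autoImplicit false

open Multiset Filter Topology FF Module
open Pool.Agent.W602.GT Pool.Agent.W603.LV Pool.Agent.Y172 Pool.Agent.Y191 Pool.Agent.R887
open Pool.Agent.N110.RK

namespace Pool.Agent.N110.SE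

/-- the positive part of a vector -/
def ps {r : ℕ} (u : Lat r) : Fin r → ℕ := fun i => (u i).toNat

/-- the negative part of a vector -/
def ng {r : ℕ} (u : Lat r) : Fin r → ℕ := fun i => (-u i).toNat

/-- intersection numbers with an action of the semigroup `ℕ ^ r` and a sequence of elements which is
almost preserved -/
structure ESys {α 𝒜 : Type} [Preorder 𝒜] (n r : ℕ) (t : Multiset α → ℝ)
    (φ : (Fin r → ℕ) → α → α) (χ : Fin r → ℝ) (mul : α → α → α) (H : α) (m : ℕ → ℝ)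
    (M : 𝒜 → ℕ → α) (ν : ℕ) (c ε : ℝ) : Prop where
  pos : ∀ s : Multiset α, s.card = n → 0 < t s
  ex : Exch n t
  hn : 0 < n
  hν : ν ≤ n
  hc : 0 < c
  hε : 0 < ε
  φ_zero : φ 0 = id
  φ_add : ∀ u v, φ (u + v) = φ u ∘ φ v
  χ_nonneg : ∀ i, 0 ≤ χ i
  inv : ∀ u (s : Multiset α), s.card = n →
    t (s.map (φ u)) = Real.exp (∑ i, χ i * (u i : ℝ)) * t s
  mul_t : ∀ a b (s : Multiset α), s.card + 1 = n →
    t (mul a b ::ₘ s) = t (a ::ₘ s) + t (b ::ₘ s)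
  m_pos : ∀ q, 0 < m q
  mono : ∀ a a', a ≤ a' → ∀ w q, Le n t 1 (φ w (M a q)) (φ w (M a' q))
  M_f : ∀ u a, ∃ a', ∀ w q, Le n t 1 (φ w (φ u (M a q))) (φ w (M a' q))
  M_le : ∀ a, ∀ᶠ q in atTop, Le n t (c * m q) (M a q) H
  eps : ∀ u, ∃ a, ∀ᶠ q in atTop,
    ε * m q ^ ν ≤ t (replicate ν (φ u (M a q)) + replicate (n - ν) H)

/-- the limit forms -/
def StmSJ : Prop :=
  ∀ (α 𝒜 : Type) [Preorder 𝒜] [IsDirected 𝒜 (· ≤ ·)] [Nonempty 𝒜] (n r : ℕ)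
    (t : Multiset α → ℝ) (φ : (Fin r → ℕ) → α → α) (χ : Fin r → ℝ) (mul : α → α → α) (H : α)
    (m : ℕ → ℝ) (M : 𝒜 → ℕ → α) (ν : ℕ) (c ε : ℝ), ESys n r t φ χ mul H m M ν c ε →
    ∃ C : Lat r → ℝ, (∀ v, 1 ≤ C v) ∧ ∃ T : ℕ → Multiset (Lat r) → ℝ,
      (∀ i, i ≤ ν → Fm C (n - i) (T i) χ) ∧
      (∀ i, i + 1 ≤ ν → ∀ s : Multiset (Lat r), s.card + (i + 2) = n → ∀ x y z : Lat r,
        T (i + 1) (x ::ₘ s) * T i (y ::ₘ z ::ₘ s) ≤
          2 * (T (i + 1) (y ::ₘ s) * T i (x ::ₘ z ::ₘ s) +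
            T (i + 1) (z ::ₘ s) * T i (x ::ₘ y ::ₘ s))) ∧
      ∀ v : Lat r, T 0 (v ::ₘ replicate (n - 1) 0) * t (replicate n H) =
        Real.exp (-∑ i, χ i * (ng v i : ℝ)) *
          t (φ (ps v) H ::ₘ replicate (n - 1) (φ (ng v) H))

section



/-- the system of commuting dominant rational self-maps which preserve `K_X + Δ` -/
def StmSG : Prop :=
  ∀ {K : Type} [Field K] [Algebra ℂ K] {N n : ℕ} {y : Fin (N + 1) → K} (hy : NormalModel y)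
    (hn : Algebra.trdeg ℂ K = n) (_ : 0 < n) {i : Fin (N + 1)} (hi : y i ≠ 0)
    {Δ : Place ℂ K → ℚ} (_ : {P | IsPrimeDivisor y P ∧ Δ P ≠ 0}.Finite) (_ : LogNef y n Δ)
    {r : ℕ} {φ : (Fin r → ℕ) → (K →ₐ[ℂ] K)} (_ : ∀ u v, φ (u + v) = φ u * φ v)
    (_ : ∀ v, SelfPullLe (φ v) y n Δ) {ν : ℕ} (_ : ν ≤ n) (_ : ¬ NumDimLt y n Δ ν),
    ∃ (m : ℕ → ℝ) (M : EffT y → ℕ → Cls ℂ (affS y i)) (c ε : ℝ),
      ESys n r (fun s : Multiset (Cls ℂ (affS y i)) => (I s : ℝ))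
        (fun v => eCls hy hn hi (φ v))
        (fun j => Real.log (mapDegree (φ (Pi.single j 1)) : ℝ))
        (mulCls (fin_affS i) (one_affS hi)) (hcls hy hi) m M ν c ε

/-- the degrees of the correspondences are intersection numbers -/
def StmSD : Prop :=
  ∀ {K : Type} [Field K] [Algebra ℂ K] {N n : ℕ} {y : Fin (N + 1) → K} (hy : NormalModel y)
    (hn : Algebra.trdeg ℂ K = n) (_ : 0 < n) {i : Fin (N + 1)} (hi : y i ≠ 0)
    {r : ℕ} {φ : (Fin r → ℕ) → (K →ₐ[ℂ] K)} (v : Lat r),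
    corrDegree φ y n v ≤ ENNReal.ofReal
      ((I (eCls hy hn hi (φ (ps v)) (hcls hy hi) ::ₘ
        replicate (n - 1) (eCls hy hn hi (φ (ng v)) (hcls hy hi))) : ℝ) /
        (mapDegree (φ (ng v)) : ℝ))

end

end Pool.Agent.N110.SE
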