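import Pool.Agent.N769.RK.B
import Pool.Agent.N110.SE.Stm

/-!
Zero growth passes from a form to a form of greater degree which satisfies a joint exchange
inequality with it (after helper769).
-/

set_option autoImplicit false

open Multiset Filter Topology

namespace Pool.Agent.N110.SE

open Pool.Agent.N110 Pool.Agent.N110.RK Pool.Agent.N769.RK

/-- the joint exchange inequality -/
def Jnt {r : ℕ} (k : ℕ) (J L : Multiset (Lat r) → ℝ) : Prop :=
  ∀ s : Multiset (Lat r), s.card = k → ∀ x y z : Lat r,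
    L (x ::ₘ s) * J (y ::ₘ z ::ₘ s) ≤
      2 * (L (y ::ₘ s) * J (x ::ₘ z ::ₘ s) + L (z ::ₘ s) * J (x ::ₘ y ::ₘ s))

section

variable {r : ℕ} {C : Lat r → ℝ} {k : ℕ} {J L : Multiset (Lat r) → ℝ} {ψ ψ' : Fin r → ℝ}

/-- the main inequality -/
theorem main_ineq (hC : ∀ v, 1 ≤ C v) (h : Fm C (k + 2) J ψ) (hL : Jnt k J L)
    (h' : Fm C (k + 1) L ψ') {w : Fin r → ℝ} (hw : ∑ i, ψ i * w i = 0) {K0 : ℝ} (hK00 : 0 < K0)
    (hK0 : ∀ δ : Lat r, (∀ i, δ i = 0 ∨ δ i = 1) → C δ ≤ K0) (l m : ℕ) :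
    dg (k + 2) J (fl w (m + l)) ≤ (K0 * Real.exp (∑ i, |ψ i|) * (2 * 4 ^ k) ^ (k + 1)) *
      (dg (k + 1) L (fl w m) * dg (k + 2) J (-fl w l) / dg (k + 2) J (fl w m) +
        dg (k + 1) L (-fl w l)) ^ (k + 1) * dg (k + 2) J (fl w m) := by
  obtain ⟨v, hv⟩ : ∃ v, v = fl w m := ⟨_, rfl⟩
  obtain ⟨u, hu⟩ : ∃ u, u = fl w l := ⟨_, rfl⟩
  have h1 : dg (k + 2) J (fl w (m + l)) ≤ K0 * dg (k + 2) J (v + u) := by
    rw [hv, hu]
    exact dg_dom (k := k + 1) hC h hK0 _ _ (fl_add w m l)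
  have h2 : dg (k + 2) J (v + u) ≤ Real.exp (∑ i, |ψ i|) * J (v ::ₘ replicate (k + 1) (-u)) := by
    rw [translate h, ← mul_assoc, ← Real.exp_add]
    refine le_mul_of_one_le_left (dg_pos (k := k + 1) hC h _).le (Real.one_le_exp ?_)
    have := char_bound hw l
    rw [← hu, abs_le] at this
    linarith [this.2]
  have h3 := chain_pow hC h v (-u) (k + 1) le_rfl
  rw [Nat.sub_self, replicate_zero, add_zero] at h3
  have h4 := hL (replicate k 0) (card_replicate _ _) 0 v (-u)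
  have e1 : L ((0 : Lat r) ::ₘ replicate k 0) = 1 := by
    rw [← replicate_succ, h'.norm]
  have e2 : J ((0 : Lat r) ::ₘ (-u) ::ₘ replicate k 0) = dg (k + 2) J (-u) := by
    unfold dg
    have : k + 2 - 1 = k + 1 := by omega
    rw [this, cons_swap, ← replicate_succ]
  have e3 : J ((0 : Lat r) ::ₘ v ::ₘ replicate k 0) = dg (k + 2) J v := by
    unfold dg
    have : k + 2 - 1 = k + 1 := by omega
    rw [this, cons_swap, ← replicate_succ]
  have e4 : ∀ x : Lat r, L (x ::ₘ replicate k 0) = dg (k + 1) L x := by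
    intro x
    unfold dg
    rw [Nat.add_sub_cancel]
  rw [e1, e2, e3, one_mul, e4, e4] at h4
  rw [← hv, ← hu]
  have p0 : 0 < dg (k + 2) J v := dg_pos (k := k + 1) hC h v
  have p1 : 0 < J (v ::ₘ (-u) ::ₘ replicate k 0) := h.pos hC _ (by
    rw [card_cons, card_cons, card_replicate])
  have p2 : 0 < dg (k + 1) L v := dg_pos hC h' v
  have p3 : 0 < dg (k + 1) L (-u) := dg_pos hC h' _
  have p4 : 0 < dg (k + 2) J (-u) := dg_pos (k := k + 1) hC h _
  have h5 : 4 ^ k * J (v ::ₘ (-u) ::ₘ replicate k 0) / dg (k + 2) J v ≤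
      (2 * 4 ^ k) * (dg (k + 1) L v * dg (k + 2) J (-u) / dg (k + 2) J v + dg (k + 1) L (-u)) := by
    calc 4 ^ k * J (v ::ₘ (-u) ::ₘ replicate k 0) / dg (k + 2) J v ≤
        4 ^ k * (2 * (dg (k + 1) L v * dg (k + 2) J (-u) + dg (k + 1) L (-u) * dg (k + 2) J v)) /
          dg (k + 2) J v := by gcongr
      _ = _ := by field_simp
  calc dg (k + 2) J (fl w (m + l)) ≤ K0 * (Real.exp (∑ i, |ψ i|) *
        ((4 ^ k * J (v ::ₘ (-u) ::ₘ replicate k 0) / dg (k + 2) J v) ^ (k + 1) * dg (k + 2) J v)) :=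
        h1.trans (mul_le_mul_of_nonneg_left (h2.trans
          (mul_le_mul_of_nonneg_left h3 (Real.exp_pos _).le)) hK00.le)
    _ ≤ K0 * (Real.exp (∑ i, |ψ i|) *
        (((2 * 4 ^ k) * (dg (k + 1) L v * dg (k + 2) J (-u) / dg (k + 2) J v +
          dg (k + 1) L (-u))) ^ (k + 1) * dg (k + 2) J v)) := by gcongr
    _ = _ := by rw [mul_pow]; ring


end

/-- **Zero growth passes from the smaller form to the form.** -/
theorem zg_step {r : ℕ} {C : Lat r → ℝ} (hC : ∀ v, 1 ≤ C v) {k : ℕ} {J : Multiset (Lat r) → ℝ}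
    {ψ : Fin r → ℝ} (h : Fm C (k + 2) J ψ) {L : Multiset (Lat r) → ℝ} {ψ' : Fin r → ℝ}
    (hL : Jnt k J L) (h' : Fm C (k + 1) L ψ') {w : Fin r → ℝ} (hw : ∑ i, ψ i * w i = 0)
    (hz1 : ZG (k + 1) L w) (hz2 : ZG (k + 1) L (-w)) : ZG (k + 2) J w := by
  by_contra hcon
  unfold ZG at hcon
  push Not at hcon
  obtain ⟨γ, hγ, hno⟩ := hcon
  obtain ⟨K0, hK00, hK0⟩ := exists_K0 C hC
  obtain ⟨K1, hK1⟩ : ∃ K1 : ℝ, K1 = K0 * 4 ^ (k + 1) := ⟨_, rfl⟩
  have hK10 : 0 < K1 := by rw [hK1]; positivity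
  have hapos : ∀ v, 0 < dg (k + 2) J v := dg_pos (k := k + 1) hC h
  have hbpos : ∀ v, 0 < dg (k + 1) L v := dg_pos hC h'
  have hsub : ∀ l m, dg (k + 2) J (fl w (l + m)) ≤
      K1 * (dg (k + 2) J (fl w l) * dg (k + 2) J (fl w m)) := by
    intro l m
    have h1 : dg (k + 2) J (fl w (l + m)) ≤ K0 * dg (k + 2) J (fl w l + fl w m) :=
      dg_dom (k := k + 1) hC h hK0 _ _ (fl_add w l m)
    have h2 : dg (k + 2) J (fl w l + fl w m) ≤
        4 ^ (k + 1) * (dg (k + 2) J (fl w l) * dg (k + 2) J (fl w m)) :=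
      Fm.sub (k := k + 1) hC h _ _
    calc _ ≤ K0 * dg (k + 2) J (fl w l + fl w m) := h1
      _ ≤ K0 * (4 ^ (k + 1) * (dg (k + 2) J (fl w l) * dg (k + 2) J (fl w m))) := by gcongr
      _ = _ := by rw [hK1]; ring
  have hgrow : ∀ l : ℕ, 1 ≤ l → Real.exp (γ * l) ≤ K1 * dg (k + 2) J (fl w l) := by
    intro l hl
    rcases fekete (fun l => hapos (fl w l)) hK10 hsub hγ (by push Not; exact hno) l with h1 | h1
    · exact h1
    · omega
  obtain ⟨B, hB⟩ := hz1 (γ / 2) (by positivity)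
  have hB0 : 0 < B := by
    have h1 := hB 0
    rw [Nat.cast_zero, mul_zero, Real.exp_zero, mul_one] at h1
    exact (hbpos _).trans_le h1
  obtain ⟨B', hB'⟩ := hz2 (γ / (2 * (k + 1))) (by positivity)
  have hB'0 : 0 < B' := by
    have h1 := hB' 0
    rw [Nat.cast_zero, mul_zero, Real.exp_zero, mul_one] at h1
    exact (hbpos _).trans_le h1
  obtain ⟨K3, hK3⟩ : ∃ K3 : ℝ, K3 = K0 * Real.exp (∑ i, |ψ i|) * (2 * 4 ^ k) ^ (k + 1) := ⟨_, rfl⟩
  have hK30 : 0 < K3 := by rw [hK3]; positivity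
  have hmain := fun l m => main_ineq hC h hL h' hw hK00 hK0 l m
  simp only [← hK3] at hmain
  -- the bound for every `l`
  have key : ∀ l : ℕ, Real.exp (γ * l) ≤ K3 * (2 * dg (k + 1) L (-fl w l)) ^ (k + 1) := by
    intro l
    obtain ⟨d, hd⟩ : ∃ d, d = dg (k + 1) L (-fl w l) := ⟨_, rfl⟩
    have hd0 : 0 < d := by rw [hd]; exact hbpos _
    obtain ⟨cl, hcl⟩ : ∃ cl, cl = dg (k + 2) J (-fl w l) := ⟨_, rfl⟩
    have hcl0 : 0 < cl := by rw [hcl]; exact hapos _
    rw [← hd]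
    have htend : Tendsto (fun m : ℕ => B * cl * K1 * Real.exp (-(γ / 2 * m))) atTop
        (𝓝 (B * cl * K1 * 0)) := by
      refine Tendsto.const_mul _ ?_
      refine Real.tendsto_exp_neg_atTop_nhds_zero.comp ?_
      exact (tendsto_natCast_atTop_atTop (R := ℝ)).const_mul_atTop (by positivity)
    rw [mul_zero] at htend
    obtain ⟨m0, hm0⟩ := eventually_atTop.1 ((htend.eventually_lt_const hd0).and
      (eventually_ge_atTop 1))
    have hstep : ∀ m, m0 ≤ m → dg (k + 2) J (fl w (m + l)) ≤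
        (K3 * (2 * d) ^ (k + 1)) * dg (k + 2) J (fl w m) := by
      intro m hm
      obtain ⟨h1, h2⟩ := hm0 m hm
      refine (hmain l m).trans ?_
      rw [← hd, ← hcl]
      have p := hapos (fl w m)
      have p' := hbpos (fl w m)
      have h3 : dg (k + 1) L (fl w m) * cl / dg (k + 2) J (fl w m) ≤ d := by
        refine le_trans ?_ h1.le
        rw [div_le_iff₀ p]
        have h4 := hB m
        have h5 := hgrow m h2
        have e : Real.exp (γ / 2 * m) = Real.exp (-(γ / 2 * m)) * Real.exp (γ * m) := by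
          rw [← Real.exp_add]
          congr 1
          ring
        calc dg (k + 1) L (fl w m) * cl ≤ B * Real.exp (γ / 2 * m) * cl := by gcongr
          _ = B * cl * Real.exp (-(γ / 2 * m)) * Real.exp (γ * m) := by rw [e]; ring
          _ ≤ B * cl * Real.exp (-(γ / 2 * m)) * (K1 * dg (k + 2) J (fl w m)) := by gcongr
          _ = _ := by ring
      have h6 : dg (k + 1) L (fl w m) * cl / dg (k + 2) J (fl w m) + d ≤ 2 * d := by linarith
      have h7 : 0 ≤ dg (k + 1) L (fl w m) * cl / dg (k + 2) J (fl w m) + d := by positivity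
      gcongr
    obtain ⟨Q, hQ⟩ : ∃ Q, Q = K3 * (2 * d) ^ (k + 1) := ⟨_, rfl⟩
    have hQ0 : 0 < Q := by rw [hQ]; positivity
    rw [← hQ]
    rw [← hQ] at hstep
    have hit : ∀ j : ℕ, dg (k + 2) J (fl w (m0 + j * l)) ≤ Q ^ j * dg (k + 2) J (fl w m0) := by
      intro j
      induction j with
      | zero => simp
      | succ j ih =>
        have h1 := hstep (m0 + j * l) (by omega)
        have e : m0 + (j + 1) * l = m0 + j * l + l := by ring
        rw [e, pow_succ]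
        calc _ ≤ Q * dg (k + 2) J (fl w (m0 + j * l)) := h1
          _ ≤ Q * (Q ^ j * dg (k + 2) J (fl w m0)) := by gcongr
          _ = _ := by ring
    have hm01 : 1 ≤ m0 := (hm0 m0 le_rfl).2
    by_contra hlt
    rw [not_le] at hlt
    have hρ : 1 < Real.exp (γ * l) / Q := by rwa [one_lt_div hQ0]
    obtain ⟨j, hj⟩ := pow_unbounded_of_one_lt (K1 * dg (k + 2) J (fl w m0)) hρ
    rw [div_pow, lt_div_iff₀ (by positivity)] at hj
    have h1 := hgrow (m0 + j * l) (by omega)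
    have h2 := mul_le_mul_of_nonneg_left (hit j) hK10.le
    have h3 : Real.exp (γ * l) ^ j ≤ Real.exp (γ * ((m0 + j * l : ℕ) : ℝ)) := by
      rw [← Real.exp_nat_mul, Real.exp_le_exp]
      push_cast
      have : 0 ≤ γ * m0 := by positivity
      linarith
    have h4 : K1 * (Q ^ j * dg (k + 2) J (fl w m0)) = K1 * dg (k + 2) J (fl w m0) * Q ^ j := by ring
    linarith
  -- the contradiction
  obtain ⟨K4, hK4⟩ : ∃ K4 : ℝ, K4 = K3 * (2 * (K0 * B')) ^ (k + 1) := ⟨_, rfl⟩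
  have hfin : ∀ l : ℕ, Real.exp (γ / 2 * l) ≤ K4 := by
    intro l
    have h1 := key l
    have h2 : dg (k + 1) L (-fl w l) ≤ K0 * (B' * Real.exp (γ / (2 * (k + 1)) * l)) := by
      have h3 := dg_dom hC h' hK0 (-fl w l) (fl (-w) l) (fl_neg w l)
      exact h3.trans (mul_le_mul_of_nonneg_left (hB' l) hK00.le)
    have p := hbpos (-fl w l)
    have h3 : Real.exp (γ * l) ≤ K4 * Real.exp (γ / 2 * l) := by
      calc Real.exp (γ * l) ≤ K3 * (2 * dg (k + 1) L (-fl w l)) ^ (k + 1) := h1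
        _ ≤ K3 * (2 * (K0 * (B' * Real.exp (γ / (2 * (k + 1)) * l)))) ^ (k + 1) := by gcongr
        _ = K3 * (2 * (K0 * B')) ^ (k + 1) * Real.exp (γ / (2 * (k + 1)) * l) ^ (k + 1) := by
          rw [← mul_assoc K0 B', ← mul_assoc 2 (K0 * B'), mul_pow, mul_assoc]
        _ = _ := by
          rw [← hK4, ← Real.exp_nat_mul]
          congr 2
          push_cast
          have : (k : ℝ) + 1 ≠ 0 := by positivity
          field_simp
    have e : Real.exp (γ * l) = Real.exp (γ / 2 * l) * Real.exp (γ / 2 * l) := by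
      rw [← Real.exp_add]
      congr 1
      ring
    rw [e] at h3
    exact le_of_mul_le_mul_right h3 (Real.exp_pos _)
  obtain ⟨l, hl⟩ := exists_nat_gt (K4 / (γ / 2))
  rw [div_lt_iff₀ (by positivity)] at hl
  have h1 := Real.add_one_le_exp (γ / 2 * l)
  have h2 := hfin l
  linarith


end Pool.Agent.N110.SE
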