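import Pool.Agent.R887.Defs

/-!
Definitions: the degrees of the correspondences given by commuting dominant rational self-maps.
-/

set_option autoImplicit false

open FF Pool.Agent.W602.GT Pool.Agent.Y172 Pool.Agent.R887

namespace Pool.Agent.N110.SE

section

variable {K : Type} [Field K] [Algebra ℂ K] {N : ℕ}

open scoped ENNReal in
/-- Let `ℕ ^ r` act on the variety `X` of dimension `n` by the dominant rational self-maps `f_a`,
given by the endomorphisms `φ a = f_a^*` of the function field. For a vector `u` of `ℤ ^ r` with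
positive part `a` and negative part `b` (`u = a - b`) this is the degree of the correspondence
`f_a ∘ f_b⁻¹`: the intersection number `f_a^* H · (f_b^* H) ^ (n - 1)` (the greatest number of points
in the fibres of the maps `(f_a^* v, f_b^* w)`, for pencils of hyperplane sections `v` and
`w 1, ..., w (n - 1)`), divided by the degree of `f_b`. For `u = a` it is the degree
`f_a^* H · H ^ (n - 1)` of `f_a`. -/
noncomputable def corrDegree {r : ℕ} (φ : (Fin r → ℕ) → (K →ₐ[ℂ] K)) (y : Fin (N + 1) → K) (n : ℕ)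
    (u : Fin r → ℤ) : ℝ≥0∞ :=
  (⨆ (v : K) (_ : IsPencil y v) (w : Fin (n - 1) → K) (_ : ∀ b, IsPencil y (w b)),
    (degreeOver (fun _ : Fin 1 => φ (fun i => (u i).toNat) v)
      (fun b => φ (fun i => (-u i).toNat) (w b)) : ℝ≥0∞)) /
    (mapDegree (φ (fun i => (-u i).toNat)) : ℝ≥0∞)

/-- The degrees grow subexponentially along the ray through the vector `w` of `ℝ ^ r`: for all
`ε > 0` they are at most `B exp (ε l)` for the lattice points `v` near `l w`, for all `l ≥ 0`. -/
def CorrSubexp {r : ℕ} (φ : (Fin r → ℕ) → (K →ₐ[ℂ] K)) (y : Fin (N + 1) → K) (n : ℕ)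
    (w : Fin r → ℝ) : Prop :=
  ∀ ε : ℝ, 0 < ε → ∃ B : ℝ, ∀ (l : ℕ) (v : Fin r → ℤ), (∀ i, |(v i : ℝ) - l * w i| < 1) →
    corrDegree φ y n v ≤ ENNReal.ofReal (B * Real.exp (ε * l))

/-- The growth rank of the action of `ℕ ^ r` on `X` is at least `s`: every linear subspace `W` of
`ℝ ^ r` such that the degrees grow subexponentially along all vectors in `W` has codimension at
least `s`. -/
def CorrRankGe {r : ℕ} (φ : (Fin r → ℕ) → (K →ₐ[ℂ] K)) (y : Fin (N + 1) → K) (n s : ℕ) : Prop :=
  ∀ W : Submodule ℝ (Fin r → ℝ), (∀ w ∈ W, CorrSubexp φ y n w) → Module.finrank ℝ W + s ≤ r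

/-- For all vectors `v` of `ℤ ^ r` the degree of `v` or the degree of `-v` is at least
`c exp (δ |v|)`, for some `c, δ > 0`. -/
def CorrExpGrowth {r : ℕ} (φ : (Fin r → ℕ) → (K →ₐ[ℂ] K)) (y : Fin (N + 1) → K) (n : ℕ) : Prop :=
  ∃ c δ : ℝ, 0 < c ∧ 0 < δ ∧ ∀ v : Fin r → ℤ,
    ENNReal.ofReal (c * Real.exp (δ * ∑ i, |(v i : ℝ)|)) ≤
      max (corrDegree φ y n v) (corrDegree φ y n (-v))

end

end Pool.Agent.N110.SE
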