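import Pool.Agent.N110.SE.B
import Pool.Agent.N110.RK.Main

/-!
**The rank theorem** for intersection numbers with an action of a semigroup.
-/

set_option autoImplicit false

open Multiset Filter Topology Module

namespace Pool.Agent.N110.SE

open Pool.Agent.N110 Pool.Agent.N110.RK Pool.Agent.N769.RK

/-- a large space of directions with zero growth in the kernel of the character -/
theorem zero_space {r : ℕ} {C : Lat r → ℝ} (hC : ∀ v, 1 ≤ C v) (k : ℕ)
    {J : Multiset (Lat r) → ℝ} {ψ : Fin r → ℝ} (hJ : Fm C (k + 1) J ψ) :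
    ∃ W : Submodule ℝ (Fin r → ℝ), r ≤ finrank ℝ W + (k + 1) ∧
      ((∀ i, ψ i = 0) → r ≤ finrank ℝ W + k) ∧ (∀ w ∈ W, ∑ i, ψ i * w i = 0) ∧
      ∀ w ∈ W, ZG (k + 1) J w := by
  rcases Nat.eq_zero_or_pos k with rfl | hk
  · by_cases h0 : ∀ i, ψ i = 0
    · obtain ⟨W, h1, h2, h3⟩ := stmC r C hC 0 J ψ hJ
      exact ⟨W, h1, h2, fun w _ => Finset.sum_eq_zero fun i _ => by rw [h0 i, zero_mul], h3⟩
    · have hZG : ∀ w : Fin r → ℝ, ∑ i, ψ i * w i = 0 → ZG 1 J w := by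
        intro w hw ε hε
        refine ⟨Real.exp (∑ i, |ψ i|), fun l => ?_⟩
        have h1 : dg 1 J (fl w l) = Real.exp (∑ i, ψ i * (fl w l i : ℝ)) := by
          unfold dg
          have h2 := hJ.inv (fl w l) (replicate 1 0)
          rw [hJ.norm, mul_one] at h2
          rw [← h2]
          congr 1
          simp
        rw [h1]
        have h3 : (1 : ℝ) ≤ Real.exp (ε * l) := Real.one_le_exp (by positivity)
        calc Real.exp (∑ i, ψ i * (fl w l i : ℝ)) ≤ Real.exp (∑ i, |ψ i|) :=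
              Real.exp_le_exp.2 (fl_bound ψ w hw l)
          _ = Real.exp (∑ i, |ψ i|) * 1 := (mul_one _).symm
          _ ≤ _ := mul_le_mul_of_nonneg_left h3 (Real.exp_pos _).le
      refine ⟨LinearMap.ker (lin ψ), finrank_ker ψ, fun h => absurd h h0, fun w hw => ?_,
        fun w hw => hZG w ?_⟩
      · rw [← lin_apply]
        exact hw
      · rw [← lin_apply]
        exact hw
  · obtain ⟨k, rfl⟩ : ∃ k', k = k' + 1 := ⟨k - 1, by omega⟩
    obtain ⟨L, hL, ψ', hL'⟩ := Pool.Agent.N478.RK.leafA Pool.Agent.N136.RK.eig r C hC (k + 1) J ψ hJ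
    obtain ⟨W', h1, -, h3⟩ := stmC r C hC k L ψ' hL'
    have hZG : ∀ w ∈ W', ∑ i, ψ i * w i = 0 → ZG (k + 2) J w := fun w hw h0 =>
      leafB r C hC k J ψ hJ L ψ' hL hL' w h0 (h3 w hw) (h3 (-w) (W'.neg_mem hw))
    by_cases h0 : ∀ i, ψ i = 0
    · have h00 : ∀ w : Fin r → ℝ, ∑ i, ψ i * w i = 0 := fun w =>
        Finset.sum_eq_zero fun i _ => by rw [h0 i, zero_mul]
      exact ⟨W', by omega, fun _ => h1, fun w _ => h00 w, fun w hw => hZG w hw (h00 w)⟩
    · refine ⟨W' ⊓ LinearMap.ker (lin ψ), ?_, fun h => absurd h h0, fun w hw => ?_,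
        fun w hw => hZG w hw.1 ?_⟩
      · have h4 := Submodule.finrank_sup_add_finrank_inf_eq W' (LinearMap.ker (lin ψ))
        have h5 := finrank_ker ψ
        have h6 : finrank ℝ ↥(W' ⊔ LinearMap.ker (lin ψ)) ≤ r := by
          have := Submodule.finrank_le (W' ⊔ LinearMap.ker (lin ψ))
          rwa [finrank_fin_fun] at this
        omega
      · rw [← lin_apply]
        exact hw.2
      · rw [← lin_apply]
        exact hw.2

/-- the descent along a chain of forms -/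
theorem descent {r n ν : ℕ} {C : Lat r → ℝ} (hC : ∀ v, 1 ≤ C v)
    {T : ℕ → Multiset (Lat r) → ℝ} {χ : Fin r → ℝ} (hT : ∀ i, i ≤ ν → Fm C (n - i) (T i) χ)
    (hJ : ∀ i, i + 1 ≤ ν → ∀ s : Multiset (Lat r), s.card + (i + 2) = n → ∀ x y z : Lat r,
      T (i + 1) (x ::ₘ s) * T i (y ::ₘ z ::ₘ s) ≤
        2 * (T (i + 1) (y ::ₘ s) * T i (x ::ₘ z ::ₘ s) +
          T (i + 1) (z ::ₘ s) * T i (x ::ₘ y ::ₘ s)))
    {W : Submodule ℝ (Fin r → ℝ)} (hW : ∀ w ∈ W, ∑ i, χ i * w i = 0) (i : ℕ) :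
    i ≤ ν → i + 1 ≤ n → (∀ w ∈ W, ZG (n - i) (T i) w) → ∀ w ∈ W, ZG n (T 0) w := by
  induction i with
  | zero =>
    intro _ _ h
    exact h
  | succ i ih =>
    intro hi hin h
    refine ih (by omega) (by omega) fun w hw => ?_
    obtain ⟨k, hk⟩ : ∃ k, n = k + (i + 2) := ⟨n - (i + 2), by omega⟩
    have e1 : n - i = k + 2 := by omega
    have e2 : n - (i + 1) = k + 1 := by omega
    have h1 := hT i (by omega)
    have h2 := hT (i + 1) hi
    rw [e1] at h1 ⊢
    rw [e2] at h2 h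
    exact zg_step hC h1 (fun s hs x y z => hJ i hi s (by omega) x y z) h2 (hW w hw) (h w hw)
      (h (-w) (W.neg_mem hw))

/-- **The rank theorem** for intersection numbers with an action of a semigroup. -/
theorem semi_rank (hSJ : StmSJ) {α 𝒜 : Type} [Preorder 𝒜] [IsDirected 𝒜 (· ≤ ·)] [Nonempty 𝒜]
    {n r : ℕ} {t : Multiset α → ℝ} {φ : (Fin r → ℕ) → α → α} {χ : Fin r → ℝ}
    {mul : α → α → α} {H : α} {m : ℕ → ℝ} {M : 𝒜 → ℕ → α} {ν : ℕ} {c ε : ℝ}
    (h : ESys n r t φ χ mul H m M ν c ε) : ∃ W : Submodule ℝ (Fin r → ℝ),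
    r + ν ≤ finrank ℝ W + n ∧ ∀ w ∈ W, ∀ δ : ℝ, 0 < δ → ∃ B : ℝ, ∀ (l : ℕ) (v : Lat r),
      (∀ i, |(v i : ℝ) - l * w i| < 1) → Real.exp (-∑ i, χ i * (ng v i : ℝ)) *
          t (φ (ps v) H ::ₘ replicate (n - 1) (φ (ng v) H)) ≤ B * Real.exp (δ * l) := by
  have hν := h.hν
  have hn := h.hn
  obtain ⟨C, hC, T, hT, hJ, hT0⟩ := hSJ α 𝒜 n r t φ χ mul H m M ν c ε h
  have hW : ∃ W : Submodule ℝ (Fin r → ℝ), r + ν ≤ finrank ℝ W + n ∧
      ∀ w ∈ W, ZG n (T 0) w := by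
    rcases Nat.lt_or_ge ν n with h1 | h1
    · obtain ⟨k, hk⟩ : ∃ k, n = k + 1 + ν := ⟨n - ν - 1, by omega⟩
      have h2 := hT ν le_rfl
      have e1 : n - ν = k + 1 := by omega
      rw [e1] at h2
      obtain ⟨W, hW1, -, hW2, hW3⟩ := zero_space hC k h2
      refine ⟨W, by omega, descent hC hT hJ hW2 ν le_rfl (by omega) ?_⟩
      rw [e1]
      exact hW3
    · have e1 : ν = n := le_antisymm hν h1
      have h2 := hT n (by omega)
      rw [Nat.sub_self] at h2
      have hχ : ∀ i, χ i = 0 := by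
        intro i
        have h3 := h2.inv (Pi.single i 1) (replicate 0 0)
        rw [h2.norm, mul_one, replicate_zero, Multiset.map_zero, ← replicate_zero (0 : Lat r),
          h2.norm] at h3
        have h4 := (Real.exp_eq_one_iff _).1 h3.symm
        rw [Finset.sum_eq_single i] at h4
        · simpa using h4
        · intro j _ hj
          rw [Pi.single_eq_of_ne hj]
          simp
        · intro hi
          exact absurd (Finset.mem_univ i) hi
      have h3 := hT (n - 1) (by omega)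
      have e2 : n - (n - 1) = 0 + 1 := by omega
      rw [e2] at h3
      obtain ⟨W, -, hW1, hW2, hW3⟩ := zero_space hC 0 h3
      have h4 := hW1 hχ
      refine ⟨W, by omega, descent hC hT hJ hW2 (n - 1) (by omega) (by omega) ?_⟩
      rw [e2]
      exact hW3
  obtain ⟨W, hW1, hW2⟩ := hW
  refine ⟨W, hW1, fun w hw δ hδ => ?_⟩
  obtain ⟨K0, hK00, hK0⟩ := exists_K0 C hC
  obtain ⟨B, hB⟩ := hW2 w hw δ hδ
  have hH := h.pos (replicate n H) (card_replicate _ _)
  obtain ⟨k, rfl⟩ : ∃ k, n = k + 1 := ⟨n - 1, by omega⟩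
  have hF := hT 0 (by omega)
  rw [Nat.sub_zero] at hF
  refine ⟨K0 * B * t (replicate (k + 1) H), fun l v hv => ?_⟩
  rw [← hT0 v]
  have h1 : dg (k + 1) (T 0) v ≤ K0 * dg (k + 1) (T 0) (fl w l) := by
    refine dg_dom hC hF hK0 _ _ fun i => ?_
    have h2 := hv i
    rw [abs_lt] at h2
    have h3 := Int.floor_le ((l : ℝ) * w i)
    have h4 := Int.lt_floor_add_one ((l : ℝ) * w i)
    have h5 : ((⌊(l : ℝ) * w i⌋ : ℤ) : ℝ) - 1 < v i := by linarith
    have h6 : (v i : ℝ) < (⌊(l : ℝ) * w i⌋ : ℤ) + 2 := by linarith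
    have h7 : ⌊(l : ℝ) * w i⌋ - 1 < v i := by exact_mod_cast h5
    have h8 : v i < ⌊(l : ℝ) * w i⌋ + 2 := by exact_mod_cast h6
    change v i - ⌊(l : ℝ) * w i⌋ = 0 ∨ v i - ⌊(l : ℝ) * w i⌋ = 1
    omega
  have h2 := hB l
  have h3 : dg (k + 1) (T 0) v ≤ K0 * (B * Real.exp (δ * l)) :=
    h1.trans (mul_le_mul_of_nonneg_left h2 hK00.le)
  unfold dg at h3
  calc T 0 (v ::ₘ replicate (k + 1 - 1) 0) * t (replicate (k + 1) H) ≤
      K0 * (B * Real.exp (δ * l)) * t (replicate (k + 1) H) :=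
        mul_le_mul_of_nonneg_right h3 hH.le
    _ = _ := by ring

end Pool.Agent.N110.SE
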